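import Mathlib

set_option autoImplicit false

namespace Pool.Agent.H7Z.LB

open Finset
open scoped Classical

/-- locally bipartite -/
def LB {V : Type} (G : SimpleGraph V) : Prop :=
  ∀ v, ∃ c : V → Bool, ∀ a b, G.Adj v a → G.Adj v b → G.Adj a b → c a ≠ c b

theorem lb_iff {V : Type} (G : SimpleGraph V) :
    LB G ↔ ∀ v : V, (G.induce (G.neighborSet v)).Colorable 2 := by
  constructor
  · intro h v
    obtain ⟨c, hc⟩ := h v
    have C : (G.induce (G.neighborSet v)).Coloring Bool :=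
      SimpleGraph.Coloring.mk (fun a => c a) fun {a b} hab => hc a b a.2 b.2 hab
    simpa using C.colorable
  · intro h v
    obtain ⟨C⟩ := h v
    refine ⟨fun a => if ha : G.Adj v a then decide (C ⟨a, ha⟩ = 0) else true, fun a b ha hb hab => ?_⟩
    simp only [ha, hb, dif_pos]
    have := C.valid (v := ⟨a, ha⟩) (w := ⟨b, hb⟩) hab
    revert this
    generalize C ⟨a, ha⟩ = p
    generalize C ⟨b, hb⟩ = q
    revert p q
    decide

theorem LB.comap {V W : Type} {H : SimpleGraph W} (h : LB H) (f : V → W) : LB (H.comap f) := by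
  intro v
  obtain ⟨c, hc⟩ := h (f v)
  exact ⟨c ∘ f, fun a b ha hb hab => hc _ _ ha hb hab⟩

/-- Every finite locally bipartite graph maps onto a twin-free edge-maximal one. -/
theorem exists_core {V : Type} [Fintype V] (G : SimpleGraph V) (hG : LB G) :
    ∃ (W : Type) (_ : Fintype W) (H : SimpleGraph W) (φ : V → W), LB H ∧
      (∀ a b, G.Adj a b → H.Adj (φ a) (φ b)) ∧ Function.Surjective φ ∧
      (∀ H' : SimpleGraph W, H ≤ H' → LB H' → H' = H) ∧
      (∀ u v : W, H.neighborSet u = H.neighborSet v → u = v) := by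
  let P : ℕ → Prop := fun k => ∃ (W : Type) (_ : Fintype W), Fintype.card W = k ∧
    ∃ (H : SimpleGraph W) (φ : V → W), LB H ∧ ∀ a b, G.Adj a b → H.Adj (φ a) (φ b)
  have hex : ∃ k, P k := ⟨_, V, inferInstance, rfl, G, id, hG, fun _ _ h => h⟩
  obtain ⟨W, hW, hk, H0, φ, hH0, hφ0⟩ := Nat.find_spec hex
  have hmin : ∀ (H : SimpleGraph W) (ψ : V → W), LB H → (∀ a b, G.Adj a b → H.Adj (ψ a) (ψ b)) →
      Function.Surjective ψ := by
    intro H ψ hH hψ w
    by_contra hw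
    push Not at hw
    refine Nat.find_min hex (m := Fintype.card {x : W // x ≠ w}) ?_
      ⟨{x : W // x ≠ w}, inferInstance, rfl, H.comap Subtype.val, fun a => ⟨ψ a, hw a⟩,
        hH.comap _, hψ⟩
    rw [← hk]
    exact Fintype.card_subtype_lt (x := w) (by simp)
  obtain ⟨H, hH0H, hHmax⟩ := Finite.exists_le_maximal (p := fun H : SimpleGraph W => LB H) hH0
  have hφ : ∀ a b, G.Adj a b → H.Adj (φ a) (φ b) := fun a b h => hH0H (hφ0 a b h)
  refine ⟨W, hW, H, φ, hHmax.1, hφ, hmin H φ hHmax.1 hφ,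
    fun H' h1 h2 => le_antisymm (hHmax.2 h2 h1) h1, fun u v huv => ?_⟩
  by_contra hne
  have hN : ∀ z, H.Adj u z ↔ H.Adj v z := fun z => by
    rw [← SimpleGraph.mem_neighborSet, huv, SimpleGraph.mem_neighborSet]
  obtain ⟨a, ha⟩ := hmin H (fun a => if φ a = u then v else φ a) hHmax.1 (fun a b hab => by
    have h := hφ a b hab
    by_cases h1 : φ a = u <;> by_cases h2 : φ b = u
    · rw [h1, h2] at h; exact absurd h (H.irrefl)
    · simp only [h1, h2, if_true, if_false]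
      rw [h1] at h; exact (hN _).1 h
    · simp only [h1, h2, if_true, if_false]
      rw [h2] at h; exact ((hN _).1 h.symm).symm
    · simp only [h1, h2, if_false]; exact h) u
  by_cases h1 : φ a = u
  · simp only [h1, if_true] at ha; exact hne ha.symm
  · simp only [h1, if_false] at ha

/-- Vertices: `0..6` are `P1, Q1, P2, Q2, B1, B2, t`; then the `u i`, the `x i j`, the `y i j`. -/
abbrev VV (m : ℕ) : Type := Fin 7 ⊕ Fin m ⊕ (Fin m × Fin m) ⊕ (Fin m × Fin m)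

def kind {m : ℕ} : VV m → Fin 10
  | .inl a => a.castLE (by norm_num)
  | .inr (.inl _) => 7
  | .inr (.inr (.inl _)) => 8
  | .inr (.inr (.inr _)) => 9

def edges : List (Fin 10 × Fin 10) :=
  [(4, 0), (4, 1), (4, 2), (4, 3), (5, 0), (5, 1), (5, 2), (5, 3), (0, 1), (2, 3),
   (6, 0), (6, 2), (6, 5), (7, 0), (7, 1), (7, 2), (7, 3), (7, 6),
   (8, 0), (8, 4), (8, 7), (8, 9), (9, 2), (9, 4), (9, 5), (9, 7)]

def KA (a b : Fin 10) : Prop := (a, b) ∈ edges ∨ (b, a) ∈ edges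

instance : DecidableRel KA := fun a b => by unfold KA; infer_instance

def ok {m : ℕ} : VV m → VV m → Prop
  | .inr (.inl k), .inr (.inr (.inl p)) => k = p.1
  | .inr (.inl k), .inr (.inr (.inr p)) => k = p.2 ∧ p.1 ≠ p.2
  | .inr (.inr (.inl p)), .inr (.inr (.inr q)) => p = q
  | _, _ => True

def GG (m : ℕ) : SimpleGraph (VV m) where
  Adj a b := KA (kind a) (kind b) ∧ ok a b ∧ ok b a
  symm := ⟨fun _ _ h => ⟨h.1.symm, h.2.2, h.2.1⟩⟩
  loopless := ⟨fun a h => (by decide : ∀ x : Fin 10, ¬ KA x x) _ h.1⟩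

def ones : List (Fin 10 × Fin 10) :=
  [(0, 1), (0, 6), (0, 8), (1, 0), (2, 3), (2, 6), (2, 9), (3, 2), (4, 0), (4, 3), (4, 9),
   (5, 0), (5, 2), (6, 0), (6, 2), (7, 0), (7, 2), (8, 0), (8, 9), (9, 2), (9, 8)]

theorem col_ok : ∀ v a b : Fin 10, KA v a → KA v b → KA a b →
    (7 ≤ v ∧ 7 ≤ a ∧ 7 ≤ b) ∨ decide ((v, a) ∈ ones) ≠ decide ((v, b) ∈ ones) := by
  decide +kernel

theorem no_tri {m : ℕ} (v a b : VV m) (h1 : (GG m).Adj v a) (h2 : (GG m).Adj v b)
    (h3 : (GG m).Adj a b) : ¬ (7 ≤ kind v ∧ 7 ≤ kind a ∧ 7 ≤ kind b) := by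
  rintro ⟨k1, k2, k3⟩
  have hl : ∀ x : Fin 7, ¬ 7 ≤ kind (m := m) (.inl x) := by
    intro x
    show ¬ (7 : Fin 10) ≤ x.castLE (by norm_num)
    revert x; decide
  have n7 : ¬ KA 7 7 := by decide
  have n8 : ¬ KA 8 8 := by decide
  have n9 : ¬ KA 9 9 := by decide
  rcases v with v | v | v | v <;> rcases a with a | a | a | a <;> rcases b with b | b | b | b <;>
    first
    | exact hl _ k1
    | exact hl _ k2
    | exact hl _ k3
    | exact n7 h1.1 | exact n7 h2.1 | exact n7 h3.1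
    | exact n8 h1.1 | exact n8 h2.1 | exact n8 h3.1
    | exact n9 h1.1 | exact n9 h2.1 | exact n9 h3.1
    | (obtain ⟨-, p1, q1⟩ := h1
       obtain ⟨-, p2, q2⟩ := h2
       obtain ⟨-, p3, q3⟩ := h3
       simp only [ok] at p1 q1 p2 q2 p3 q3
       grind)

theorem lb_GG (m : ℕ) : LB (GG m) := by
  intro v
  refine ⟨fun a => decide ((kind v, kind a) ∈ ones), fun a b h1 h2 h3 => ?_⟩
  rcases col_ok _ _ _ h1.1 h2.1 h3.1 with h | h
  · exact absurd h (no_tri v a b h1 h2 h3)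
  · exact h

theorem adj_bulk {m : ℕ} (v : VV m) (a : Fin 7) (h : KA (kind v) (a.castLE (by norm_num))) :
    (GG m).Adj v (.inl a) := by
  refine ⟨h, ?_, ?_⟩
  · rcases v with v | v | v | v <;> trivial
  · trivial

theorem inj_u {m : ℕ} {W : Type} {H : SimpleGraph W} (hH : LB H) (φ : VV m → W)
    (hφ : ∀ a b, (GG m).Adj a b → H.Adj (φ a) (φ b)) :
    Function.Injective fun i : Fin m => φ (.inr (.inl i)) := by
  intro i j hij
  by_contra hne
  simp only at hij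
  obtain ⟨c, hc⟩ := hH (φ (.inr (.inl i)))
  have a0 := hφ _ _ (adj_bulk (.inr (.inl i)) 0 (by decide : KA 7 0))
  have a2 := hφ _ _ (adj_bulk (.inr (.inl i)) 2 (by decide : KA 7 2))
  have a6 := hφ _ _ (adj_bulk (.inr (.inl i)) 6 (by decide : KA 7 6))
  have ax := hφ (.inr (.inl i)) (.inr (.inr (.inl (i, j)))) ⟨(by decide : KA 7 8), rfl, trivial⟩
  have ay := hφ (.inr (.inl j)) (.inr (.inr (.inr (i, j))))
    ⟨(by decide : KA 7 9), ⟨rfl, hne⟩, trivial⟩
  rw [← hij] at ay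
  have e1 := hc _ _ ax a0 (hφ _ _ (adj_bulk (.inr (.inr (.inl (i, j)))) 0 (by decide : KA 8 0)))
  have e2 := hc _ _ ax ay (hφ (.inr (.inr (.inl (i, j)))) (.inr (.inr (.inr (i, j))))
    ⟨(by decide : KA 8 9), rfl, trivial⟩)
  have e3 := hc _ _ ay a2 (hφ _ _ (adj_bulk (.inr (.inr (.inr (i, j)))) 2 (by decide : KA 9 2)))
  have e4 := hc _ _ a6 a2 (hφ _ _ (adj_bulk (.inl 6) 2 (by decide : KA 6 2)))
  have e5 := hc _ _ a6 a0 (hφ _ _ (adj_bulk (.inl 6) 0 (by decide : KA 6 0)))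
  revert e1 e2 e3 e4 e5
  generalize c (φ (.inr (.inr (.inl (i, j))))) = p1
  generalize c (φ (.inr (.inr (.inr (i, j))))) = p2
  generalize c (φ (.inl 0)) = p3
  generalize c (φ (.inl 2)) = p4
  generalize c (φ (.inl 6)) = p5
  revert p1 p2 p3 p4 p5
  decide

def wt : Fin 7 → ℕ := ![3, 1, 1, 1, 3, 2, 0]

theorem wt_deg : ∀ k : Fin 10,
    6 ≤ ∑ a ∈ univ.filter (fun a : Fin 7 => KA k (a.castLE (by norm_num))), wt a := by
  decide +kernel

theorem wt_sum : ∑ a, wt a = 11 := by decide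

theorem beats (m : ℕ) : ∃ ω : VV m → ℝ, (∀ v, 0 < ω v) ∧
    ∀ v, (8 / 15 : ℝ) * ∑ u, ω u < ∑ u ∈ univ.filter ((GG m).Adj v), ω u := by
  set n := Fintype.card (VV m) with hn
  let w : VV m → ℝ := fun v => match v with
    | .inl a => wt a
    | .inr _ => 0
  have hw0 : ∀ v, 0 ≤ w v := fun v => by
    rcases v with v | v
    · exact Nat.cast_nonneg _
    · exact le_rfl
  refine ⟨fun v => (4 * n + 1) * w v + 1, fun v => by have := hw0 v; positivity, fun v => ?_⟩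
  have h1 : ∑ u, w u = 11 := by
    rw [Fintype.sum_sum_type]
    simp only [w, sum_const_zero, add_zero]
    exact_mod_cast wt_sum
  have h2 : (6 : ℝ) ≤ ∑ u ∈ univ.filter ((GG m).Adj v), w u := by
    have h3 : (6 : ℝ) ≤ ∑ a ∈ univ.filter (fun a : Fin 7 => KA (kind v) (a.castLE (by norm_num))),
        (wt a : ℝ) := by exact_mod_cast wt_deg (kind v)
    refine h3.trans ?_
    have e := sum_map (f := w)
      (univ.filter (fun a : Fin 7 => KA (kind v) (a.castLE (by norm_num))))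
      ⟨Sum.inl, Sum.inl_injective⟩
    refine le_trans (le_of_eq e.symm) ?_
    refine sum_le_sum_of_subset_of_nonneg (fun u hu => ?_) fun u _ _ => hw0 u
    obtain ⟨a, ha, rfl⟩ := mem_map.1 hu
    exact mem_filter.2 ⟨mem_univ _, adj_bulk v a (mem_filter.1 ha).2⟩
  rw [sum_add_distrib, sum_add_distrib, ← mul_sum, ← mul_sum, h1]
  simp only [sum_const, card_univ, nsmul_eq_mul, mul_one, ← hn]
  have h4 : (0 : ℝ) ≤ (univ.filter ((GG m).Adj v)).card := Nat.cast_nonneg _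
  have h5 : (0 : ℝ) ≤ n := Nat.cast_nonneg _
  nlinarith

theorem main (m : ℕ) : ∃ (W : Type) (_ : Fintype W) (H : SimpleGraph W), LB H ∧
    (∀ H' : SimpleGraph W, H ≤ H' → LB H' → H' = H) ∧
    (∀ u v : W, H.neighborSet u = H.neighborSet v → u = v) ∧
    (∃ ω : W → ℝ, (∀ v, 0 < ω v) ∧
      ∀ v, (8 / 15 : ℝ) * ∑ u, ω u < ∑ u ∈ univ.filter (H.Adj v), ω u) ∧ m ≤ Fintype.card W := by
  obtain ⟨W, hW, H, φ, h1, h2, h3, h4, h5⟩ := exists_core (GG m) (lb_GG m)
  obtain ⟨ω, hω, hd⟩ := beats m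
  refine ⟨W, hW, H, h1, h4, h5, ⟨fun z => ∑ a ∈ univ.filter (fun a => φ a = z), ω a,
    fun z => ?_, fun z => ?_⟩, ?_⟩
  · obtain ⟨a, ha⟩ := h3 z
    exact sum_pos (fun b _ => hω b) ⟨a, mem_filter.2 ⟨mem_univ _, ha⟩⟩
  · obtain ⟨v, rfl⟩ := h3 z
    beta_reduce
    have e1 : ∑ u, ∑ a ∈ univ.filter (fun a => φ a = u), ω a = ∑ a, ω a :=
      sum_fiberwise_of_maps_to (fun _ _ => mem_univ _) _
    have e2 := sum_fiberwise_eq_sum_filter univ (univ.filter (H.Adj (φ v))) φ ω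
    rw [e1, e2]
    refine (hd v).trans_le (sum_le_sum_of_subset_of_nonneg (fun u hu => ?_) fun u _ _ => (hω u).le)
    exact mem_filter.2 ⟨mem_univ _, mem_filter.2 ⟨mem_univ _, h2 _ _ (mem_filter.1 hu).2⟩⟩
  · simpa using Fintype.card_le_of_injective _ (inj_u h1 φ h2)

end Pool.Agent.H7Z.LB
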